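import Pool.Agent.helper86.ZD.SpecC

set_option autoImplicit false

open Complex MeasureTheory

namespace Pool.Agent.ZD

open Pool.Agent.helper84.DM Pool.Agent.helper78.ED Pool.Agent.DH

theorem CALL (h1 : CONE_stmt) (h2 : CSEP_stmt) : CALL_stmt := by
  intro ε δ hε hδ hδ4
  obtain ⟨ϑ, hϑ0, hϑε, hϑh, hC⟩ := h1 (ε / 4) (by linarith)
  obtain ⟨κ, hκ0, hκ1, hC⟩ := hC δ hδ hδ4
  obtain ⟨Cs, Ts, hCs, hS⟩ := h2 ϑ hϑ0 hϑh
  refine ⟨κ, hκ0, hκ1, fun C₁ hC₁ => ?_⟩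
  obtain ⟨C, T₀, hC0, hC⟩ := hC C₁ hC₁
  refine ⟨Cs * C, max 1 (max T₀ Ts), by positivity, ?_⟩
  intro T hT σ hσ1 hσ2 N hN1 hN2 a ha Z hZ hV
  have hT1 : (1 : ℝ) ≤ T := le_trans (le_max_left _ _) hT
  have hT2 : T₀ ≤ T := le_trans (le_trans (le_max_left _ _) (le_max_right _ _)) hT
  have hT3 : Ts ≤ T := le_trans (le_trans (le_max_right _ _) (le_max_right _ _)) hT
  have hT0 : 0 < T := by linarith
  obtain ⟨W, hW, hWZ, hcard⟩ := hS T hT3 σ hσ1 Z hZ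
  have hWc := hC T hT2 σ hσ1 hσ2 N hN1 hN2 a ha W hW (by
    intro t ht
    obtain ⟨ρ, hρ, hρt⟩ := hWZ t ht
    rw [← hρt]; exact hV ρ hρ)
  calc (Z.card : ℝ) ≤ Cs * T ^ (2 * ϑ) * (W.card : ℝ) := hcard
    _ ≤ Cs * T ^ (2 * ϑ) * (C * T ^ (39 / 17 * (1 - σ) + ε / 4 + 4 * δ)) := by
        gcongr
    _ = Cs * C * (T ^ (2 * ϑ) * T ^ (39 / 17 * (1 - σ) + ε / 4 + 4 * δ)) := by ring
    _ = Cs * C * T ^ (2 * ϑ + (39 / 17 * (1 - σ) + ε / 4 + 4 * δ)) := by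
        rw [← Real.rpow_add hT0]
    _ ≤ Cs * C * T ^ (39 / 17 * (1 - σ) + ε + 4 * δ) := by
        have : T ^ (2 * ϑ + (39 / 17 * (1 - σ) + ε / 4 + 4 * δ))
            ≤ T ^ (39 / 17 * (1 - σ) + ε + 4 * δ) :=
          Real.rpow_le_rpow_of_exponent_le hT1 (by linarith)
        have hpos : 0 < Cs * C := by positivity
        exact mul_le_mul_of_nonneg_left this hpos.le

end Pool.Agent.ZD
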