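import Pool.Agent.helper86.ZD.SpecC

set_option autoImplicit false

open Complex MeasureTheory

namespace Pool.Agent.ZD

open Pool.Agent.helper84.DM Pool.Agent.helper78.ED Pool.Agent.DH

theorem CONE (h1 : CMA_stmt) (h2 : CMB_stmt) (h3 : CMC_stmt) (h4 : LVN_stmt) : CONE_stmt := by
  intro ε hε
  obtain ⟨δ₀, hδ₀, hL⟩ := h4 ε hε
  have hϑ : 0 < min δ₀ (min ε (1 / 2)) := lt_min hδ₀ (lt_min hε (by norm_num))
  have hϑδ : min δ₀ (min ε (1 / 2)) ≤ δ₀ := min_le_left _ _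
  have hϑε : min δ₀ (min ε (1 / 2)) ≤ ε := le_trans (min_le_right _ _) (min_le_left _ _)
  have hϑh : min δ₀ (min ε (1 / 2)) ≤ 1 / 2 := le_trans (min_le_right _ _) (min_le_right _ _)
  generalize min δ₀ (min ε (1 / 2)) = ϑ at hϑ hϑδ hϑε hϑh
  refine ⟨ϑ, hϑ, hϑε, hϑh, ?_⟩
  intro δ hδ hδ4
  obtain ⟨κ4, hκ4, hκ4', hL⟩ := hL ϑ hϑ hϑδ
  obtain ⟨κ1, hκ1, hκ1', hA⟩ := h1 ε δ hε hδ hδ4
  obtain ⟨κ2, hκ2, hκ2', hB⟩ := h2 ε δ hε hδ hδ4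
  obtain ⟨κ3, hκ3, hκ3', hCc⟩ := h3 ε hε
  have hk1 : min (min κ1 κ2) (min κ3 κ4) ≤ κ1 := le_trans (min_le_left _ _) (min_le_left _ _)
  have hk2 : min (min κ1 κ2) (min κ3 κ4) ≤ κ2 := le_trans (min_le_left _ _) (min_le_right _ _)
  have hk3 : min (min κ1 κ2) (min κ3 κ4) ≤ κ3 := le_trans (min_le_right _ _) (min_le_left _ _)
  have hk4 : min (min κ1 κ2) (min κ3 κ4) ≤ κ4 := le_trans (min_le_right _ _) (min_le_right _ _)
  have hk0 : 0 < min (min κ1 κ2) (min κ3 κ4) :=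
    lt_min (lt_min hκ1 hκ2) (lt_min hκ3 hκ4)
  generalize min (min κ1 κ2) (min κ3 κ4) = κ at hk1 hk2 hk3 hk4 hk0
  refine ⟨κ, hk0, le_trans hk1 hκ1', ?_⟩
  intro C₁ hC₁
  obtain ⟨CA, TA, hCA, hA⟩ := hA C₁ hC₁
  obtain ⟨CB, TB, hCB, hB⟩ := hB C₁ hC₁
  obtain ⟨CC, TC, hCC, hCc⟩ := hCc C₁ hC₁
  obtain ⟨CL, TL, hCL, hL⟩ := hL C₁ hC₁
  refine ⟨CA + CB + CC + CL, max 1 (max (max TA TB) (max TC TL)), by positivity, ?_⟩
  intro T hT σ hσ1 hσ2 N hN1 hN2 a ha W hW hV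
  have hT1 : (1 : ℝ) ≤ T := le_trans (le_max_left _ _) hT
  have hT' := le_trans (le_max_right _ _) hT
  have hTA : TA ≤ T := le_trans (le_trans (le_max_left _ _) (le_max_left _ _)) hT'
  have hTB : TB ≤ T := le_trans (le_trans (le_max_right _ _) (le_max_left _ _)) hT'
  have hTC : TC ≤ T := le_trans (le_trans (le_max_left _ _) (le_max_right _ _)) hT'
  have hTL : TL ≤ T := le_trans (le_trans (le_max_right _ _) (le_max_right _ _)) hT'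
  have hT0 : 0 < T := by linarith
  have haκ : ∀ κ' : ℝ, κ ≤ κ' → ∀ n ∈ Finset.Ioc N (2 * N), ‖a n‖ ≤ C₁ * T ^ κ' := by
    intro κ' hκ' n hn
    refine le_trans (ha n hn) (mul_le_mul_of_nonneg_left ?_ hC₁.le)
    exact Real.rpow_le_rpow_of_exponent_le hT1 hκ'
  have hW0 : Sep 0 T W := by
    refine ⟨hW.1, fun t ht t' ht' hne => le_trans ?_ (hW.2 t ht t' ht' hne)⟩
    exact Real.rpow_le_rpow_of_exponent_le hT1 hϑ.le
  have hX : T ^ (39 / 17 * (1 - σ) + ε) ≤ T ^ (39 / 17 * (1 - σ) + ε + 4 * δ) :=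
    Real.rpow_le_rpow_of_exponent_le hT1 (by linarith)
  have hX0 : 0 < T ^ (39 / 17 * (1 - σ) + ε) := Real.rpow_pos_of_pos hT0 _
  have hX1 : 0 < T ^ (39 / 17 * (1 - σ) + ε + 4 * δ) := Real.rpow_pos_of_pos hT0 _
  have key : ∀ c : ℝ, 0 ≤ c → c ≤ CA + CB + CC + CL →
      (W.card : ℝ) ≤ c * T ^ (39 / 17 * (1 - σ) + ε + 4 * δ) →
      (W.card : ℝ) ≤ (CA + CB + CC + CL) * T ^ (39 / 17 * (1 - σ) + ε + 4 * δ) := by
    intro c _ hc h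
    exact le_trans h (mul_le_mul_of_nonneg_right hc hX1.le)
  by_cases c1 : (N : ℝ) ≤ T ^ (13 / 34 : ℝ)
  · refine key CA hCA.le (by linarith) ?_
    refine le_trans (hA T hTA σ hσ1 hσ2 N hN1 c1 a (haκ κ1 hk1) W hW0 hV) ?_
    exact mul_le_mul_of_nonneg_left hX hCA.le
  push Not at c1
  by_cases c2 : σ ≤ 9 / 13 ∨ T ^ (1 / 2 : ℝ) ≤ (N : ℝ)
  · refine key CB hCB.le (by linarith) ?_
    exact hB T hTB σ hσ1 hσ2 N c1.le hN2 c2 a (haκ κ2 hk2) W hW0 hV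
  push Not at c2
  by_cases c3 : T ^ (1 - 39 / 17 * (1 - σ)) ≤ (N : ℝ) ^ (2 * (2 * σ - 1))
  · refine key CC hCC.le (by linarith) ?_
    refine le_trans (hCc T hTC σ hσ1 hσ2 N c1.le c2.2.le c3 a (haκ κ3 hk3) W hW0 hV) ?_
    exact mul_le_mul_of_nonneg_left hX hCC.le
  push Not at c3
  · refine key CL hCL.le (by linarith) ?_
    refine le_trans (hL T hTL σ c2.1.le hσ2 W hW N a c1.le c2.2.le c3.le (haκ κ4 hk4) hV) ?_
    exact mul_le_mul_of_nonneg_left hX hCL.le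

end Pool.Agent.ZD
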